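import Mathlib
import Pool.Agent.Work.MP_fe1b94_co.Pack
import Pool.Agent.Work.MP_fe1b94_co.Girth
import Pool.Agent.Work.MP_fe1b94_co.Example

/-!
The list packing number and the correspondence packing number of the class of planar graphs of
girth at least four are both equal to four.  More generally, every fourfold cover of a finite
graph with at most `2 |X| - 2` edges inside each nonempty vertex set `X` has a packing.
-/

set_option autoImplicit false

namespace Pool.Agent.Results.MP_fe1b94_co.GirthFour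

open Pool.Agent.MPfe1b94 SimpleGraph

theorem free_of_egirth {V : Type} (G : SimpleGraph V) (h : 4 ≤ G.egirth) :
    ∀ a b c, G.Adj a b → G.Adj b c → ¬ G.Adj c a := by
  classical
  intro a b c hab hbc hca
  have hs : G.IsNClique 3 {a, b, c} := by
    rw [is3Clique_iff]
    exact ⟨a, b, c, hab, hca.symm, hbc, rfl⟩
  obtain ⟨u, w, hw, hlen⟩ := is3Clique_iff_exists_cycle_length_three.mp ⟨_, hs⟩
  have h1 := le_egirth.mp h u w hw
  rw [hlen] at h1
  exact absurd h1 (by decide)

theorem four_le_egirth {V : Type} (G : SimpleGraph V)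
    (h : ∀ a b c, G.Adj a b → G.Adj b c → ¬ G.Adj c a) : 4 ≤ G.egirth := by
  classical
  rw [le_egirth]
  intro a w hw
  have h3 := hw.three_le_length
  by_contra hlt
  have hlen : w.length = 3 := by
    have : w.length < 4 := by
      rw [not_le] at hlt
      exact_mod_cast hlt
    omega
  obtain ⟨s, hs⟩ := is3Clique_iff_exists_cycle_length_three.mpr ⟨a, w, hw, hlen⟩
  rw [is3Clique_iff] at hs
  obtain ⟨x, y, z, hxy, hxz, hyz, -⟩ := hs
  exact h x y z hxy hyz hxz.symm

/-- Number of edges of `G` inside `X`. -/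
noncomputable def edgesInside {V : Type} (G : SimpleGraph V) (X : Finset V) : ℕ :=
  {e : Sym2 V | e ∈ G.edgeSet ∧ ∀ v ∈ e, v ∈ X}.ncard

theorem result :
    (∀ (V : Type) [Finite V] (G : SimpleGraph V),
      (∀ X : Finset V, X.Nonempty → edgesInside G X + 2 ≤ 2 * X.card) →
        CorrPackable G 4 ∧ ListPackable G 4) ∧
    (∀ (V : Type) [Finite V] (G : SimpleGraph V), IsPlanar G → 4 ≤ G.egirth →
      CorrPackable G 4 ∧ ListPackable G 4) ∧
    IsGreatest {m : ℕ | ∃ (V : Type) (_ : Finite V) (G : SimpleGraph V),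
      IsPlanar G ∧ 4 ≤ G.egirth ∧ corrPackingNumber G = m} 4 ∧
    IsGreatest {m : ℕ | ∃ (V : Type) (_ : Finite V) (G : SimpleGraph V),
      IsPlanar G ∧ 4 ≤ G.egirth ∧ listPackingNumber G = m} 4 := by
  have hA : ∀ (V : Type) [Finite V] (G : SimpleGraph V),
      (∀ X : Finset V, X.Nonempty → edgesInside G X + 2 ≤ 2 * X.card) →
        CorrPackable G 4 ∧ ListPackable G 4 := by
    intro V _ G h
    have h1 := packable_of_sparse G h
    exact ⟨h1, list_of_corr G 4 h1⟩
  have hB : ∀ (V : Type) [Finite V] (G : SimpleGraph V), IsPlanar G → 4 ≤ G.egirth →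
      CorrPackable G 4 ∧ ListPackable G 4 := by
    intro V _ G hp hg
    exact hA V G (fun X hX => sparse_of_planar G hp (free_of_egirth G hg) X hX)
  have hg0 : 4 ≤ G0.egirth := four_le_egirth G0 free0
  have hlist : listPackingNumber G0 = 4 := by
    unfold listPackingNumber
    apply IsLeast.csInf_eq
    refine ⟨⟨by norm_num, (hB _ G0 planar0 hg0).2⟩, ?_⟩
    rintro k ⟨hk1, hk⟩
    by_contra hlt
    rw [not_le] at hlt
    interval_cases k
    · exact not_list_one hk
    · exact not_list_two hk
    · exact not_list_three hk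
  have hcorr : corrPackingNumber G0 = 4 := by
    unfold corrPackingNumber
    apply IsLeast.csInf_eq
    refine ⟨⟨by norm_num, (hB _ G0 planar0 hg0).1⟩, ?_⟩
    rintro k ⟨hk1, hk⟩
    by_contra hlt
    rw [not_le] at hlt
    have hk' := list_of_corr G0 k hk
    interval_cases k
    · exact not_list_one hk'
    · exact not_list_two hk'
    · exact not_list_three hk'
  refine ⟨hA, hB, ⟨⟨Fin 18, inferInstance, G0, planar0, hg0, hcorr⟩, ?_⟩,
    ⟨⟨Fin 18, inferInstance, G0, planar0, hg0, hlist⟩, ?_⟩⟩
  · rintro m ⟨V, _, G, hp, hg, rfl⟩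
    exact Nat.sInf_le ⟨by norm_num, (hB V G hp hg).1⟩
  · rintro m ⟨V, _, G, hp, hg, rfl⟩
    exact Nat.sInf_le ⟨by norm_num, (hB V G hp hg).2⟩

end Pool.Agent.Results.MP_fe1b94_co.GirthFour
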