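import Mathlib
import Pool.Agent.Work.MP_fe1b94_co.StripCover

set_option autoImplicit false

namespace Pool.Agent.Results.MP_fe1b94_co.PlanarLowerSix

open Pool.Agent.Work.MP_fe1b94_co.H65

/-- There is a finite planar graph `G` such that every `k ≥ 1` for which all `k`-fold covers of
`G` have a packing is at least `6`; that is, `χ*_c(G) ≥ 6`. -/
theorem result : ∃ (V : Type) (_ : Finite V) (G : SimpleGraph V), IsPlanar G ∧
    ∀ k, 1 ≤ k → (∀ M : Cover G k, M.HasPacking) → 6 ≤ k := by
  refine ⟨Vtx 959, inferInstance, stripGraph 959, stripGraph_planar 959, ?_⟩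
  intro k hk h
  by_contra hlt
  exact stripCover_no_packing (packing_mono hk (by omega) h _)

end Pool.Agent.Results.MP_fe1b94_co.PlanarLowerSix
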