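import Mathlib
import Pool.Agent.Work.MP_fe1b94_co.TW.UpperT

/-!
For every `t ≥ 3` the list packing number of a finite graph of treewidth at most `t` is at most
`2 t - 1`.
-/

set_option autoImplicit false

namespace Pool.Agent.Results.MP_fe1b94_co.TreewidthBound

open Pool.Agent.MPfe1b94 (ListPackable listPackingNumber)
open Pool.Agent.MPfe1b94.TW Pool.Agent.IForest

theorem result (V : Type) [Finite V] (G : SimpleGraph V) (t : ℕ) (ht : 3 ≤ t)
    (hG : TreewidthLE G t) : ListPackable G (2 * t - 1) ∧ listPackingNumber G ≤ 2 * t - 1 := by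
  have := Fintype.ofFinite V
  have h := listPackable_treewidth G t ht hG
  exact ⟨h, Nat.sInf_le ⟨by omega, h⟩⟩

end Pool.Agent.Results.MP_fe1b94_co.TreewidthBound
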