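import Mathlib
import Pool.Agent.Work.MP_fe1b94_co.TW.UpperT
import Pool.Agent.Work.MP_fe1b94_co.TW.ListStrip
import Pool.Agent.Work.MP_fe1b94_co.TW.StripTD

/-!
For planar graphs of treewidth at most three the maximum of the list packing number is five.
-/

set_option autoImplicit false

namespace Pool.Agent.Results.MP_fe1b94_co.TreewidthThree

open Pool.Agent.MPfe1b94 (ListPackable listPackingNumber)
open Pool.Agent.MPfe1b94.TW Pool.Agent.IForest
open Pool.Agent.Work.MP_fe1b94_co.H65 (IsPlanar Vtx stripGraph stripGraph_planar)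

theorem list_succ {V : Type} (G : SimpleGraph V) (k : ℕ) (hk : 1 ≤ k) (h : ListPackable G k) :
    ListPackable G (k + 1) := by
  classical
  intro C L hL
  have hsub : ∀ v, ∃ L' ⊆ L v, L'.card = k := fun v =>
    Finset.exists_subset_card_eq (by rw [hL v]; omega)
  choose L' hL' hL'c using hsub
  obtain ⟨ψ, hψ, hψc, -⟩ := h C L' hL'c
  set φ : V → C := fun v => ψ ⟨0, hk⟩ v with hφ
  have hφL : ∀ v, φ v ∈ L v := fun v => hL' v (hψ ⟨0, hk⟩ v)
  have hφc : ∀ u v, G.Adj u v → φ u ≠ φ v := fun u v huv => hψc ⟨0, hk⟩ u v huv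
  obtain ⟨χ, hχ, hχc, hχd⟩ := h C (fun v => (L v).erase (φ v)) (fun v => by
    rw [Finset.card_erase_of_mem (hφL v), hL v]; rfl)
  have hχ' : ∀ i v, χ i v ∈ L v ∧ χ i v ≠ φ v := fun i v =>
    ⟨(Finset.mem_erase.mp (hχ i v)).2, (Finset.mem_erase.mp (hχ i v)).1⟩
  refine ⟨Fin.cases φ χ, ?_, ?_, ?_⟩
  · intro i v
    refine Fin.cases ?_ ?_ i
    · exact hφL v
    · intro i
      exact (hχ' i v).1
  · intro i u v huv
    refine Fin.cases ?_ ?_ i
    · exact hφc u v huv
    · intro i
      exact hχc i u v huv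
  · intro i j
    refine Fin.cases ?_ ?_ i
    · refine Fin.cases ?_ ?_ j
      · intro h
        exact absurd rfl h
      · intro j _ v h
        exact (hχ' j v).2 h.symm
    · intro i
      refine Fin.cases ?_ ?_ j
      · intro _ v h
        exact (hχ' i v).2 h
      · intro j hij v
        exact hχd i j (fun h' => hij (by rw [h'])) v

theorem list_mono {V : Type} (G : SimpleGraph V) (k l : ℕ) (hk : 1 ≤ k) (hkl : k ≤ l)
    (h : ListPackable G k) : ListPackable G l := by
  induction l, hkl using Nat.le_induction with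
  | base => exact h
  | succ l hkl ih => exact list_succ G l (hk.trans hkl) ih

theorem result :
    IsGreatest {m : ℕ | ∃ (V : Type) (_ : Finite V) (G : SimpleGraph V),
      IsPlanar G ∧ TreewidthLE G 3 ∧ listPackingNumber G = m} 5 := by
  have hA : ∀ (V : Type) [Finite V] (G : SimpleGraph V), TreewidthLE G 3 →
      ListPackable G 5 := by
    intro V _ G hT
    have := Fintype.ofFinite V
    exact listPackable_treewidth G 3 le_rfl hT
  have hlist : listPackingNumber (stripGraph 239) = 5 := by
    unfold listPackingNumber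
    apply IsLeast.csInf_eq
    refine ⟨⟨by norm_num, hA _ _ (stripGraph_treewidth 239 (by norm_num))⟩, ?_⟩
    rintro k ⟨hk1, hk⟩
    by_contra hlt
    exact not_listPackable_four (list_mono _ k 4 hk1 (by omega) hk)
  refine ⟨⟨Vtx 239, inferInstance, stripGraph 239, stripGraph_planar 239,
    stripGraph_treewidth 239 (by norm_num), hlist⟩, ?_⟩
  rintro m ⟨V, _, G, -, hT, rfl⟩
  exact Nat.sInf_le ⟨by norm_num, hA V G hT⟩

end Pool.Agent.Results.MP_fe1b94_co.TreewidthThree
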